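import Pool.Agent.V11199.HF.Glob

/-!
MP_f18a8d_nt: the sign pattern of the perturbed Hofstadter sequence is not eventually 4-regular.
-/

namespace Pool.Agent.Results.MP_f18a8d_nt.NotRegular

open Pool.Agent.V11199.HF

/-- `Q` satisfies the Hofstadter `Q`-recurrence with the parity term `(-1)^n`, for `n ≥ 3`, with
`Q(1) = Q(2) = 1`; the two indices `n - Q(n-1)` and `n - Q(n-2)` lie in `[1, n-1]`. -/
def IsQ (Q : ℕ → ℤ) : Prop :=
  Q 1 = 1 ∧ Q 2 = 1 ∧ ∀ n : ℕ, 3 ≤ n → ∃ i j : ℕ,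
    1 ≤ i ∧ i < n ∧ 1 ≤ j ∧ j < n ∧ (i : ℤ) = n - Q (n-1) ∧ (j : ℤ) = n - Q (n-2) ∧
    Q n = Q i + Q j + (-1)^n

/-- the `k`-kernel of a sequence -/
def kernel (k : ℕ) (t : ℕ → ℤ) : Set (ℕ → ℤ) :=
  {g | ∃ e c : ℕ, c < k^e ∧ g = fun n => t (k^e * n + c)}

/-- `t` is `k`-regular: the `ℤ`-module spanned by its `k`-kernel is finitely generated. -/
def IsRegular (k : ℕ) (t : ℕ → ℤ) : Prop := (Submodule.span ℤ (kernel k t)).FG

/-- `s` is eventually `k`-regular. -/
def EventuallyRegular (k : ℕ) (s : ℕ → ℤ) : Prop :=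
  ∃ t : ℕ → ℤ, IsRegular k t ∧ ∀ᶠ n in Filter.atTop, s n = t n

/-- the canonical solution -/
noncomputable def Q0 (n : ℕ) : ℤ :=
  if n % 2 = 1 then 2 * (A ((n+1)/2) : ℤ) - 1 else 2 * (B (n/2) : ℤ) - 1

lemma Q0_odd (m : ℕ) : Q0 (2*m+1) = 2 * (A (m+1) : ℤ) - 1 := by
  unfold Q0
  rw [if_pos (by omega)]
  have : (2*m+1+1)/2 = m+1 := by omega
  rw [this]

lemma Q0_even (m : ℕ) : Q0 (2*m) = 2 * (B m : ℤ) - 1 := by
  unfold Q0
  rw [if_neg (by omega)]
  have : (2*m)/2 = m := by omega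
  rw [this]

lemma Q0_isQ : IsQ Q0 := by
  refine ⟨?_, ?_, ?_⟩
  · have := Q0_odd 0
    rw [this]
    have h : A (0+1) = 1 := A_one
    rw [h]; norm_num
  · have := Q0_even 1
    rw [this, B_one]; norm_num
  · intro n hn
    rcases Nat.even_or_odd' n with ⟨k, hk | hk⟩
    · -- n = 2 * k, k = m + 1
      obtain ⟨m, rfl⟩ : ∃ m, k = m + 1 := ⟨k-1, by omega⟩
      subst hk
      have hm : 1 ≤ m := by omega
      have hA := (le_self_aux (m+1) (by omega)).1
      have hB := (le_self_aux m hm).2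
      have hA1 := A_pos (m+1)
      have hB1 := B_pos m
      obtain ⟨X, hX⟩ : ∃ X, X + 1 + A (m+1) = m + 2 := ⟨m + 1 - A (m+1), by omega⟩
      obtain ⟨Y, hY⟩ : ∃ Y, Y + B m = m + 1 := ⟨m + 1 - B m, by omega⟩
      have hR := RB hm hX hY
      have e1 : 2 * (m+1) - 1 = 2*m+1 := by omega
      have e2 : 2 * (m+1) - 2 = 2*m := by omega
      rw [e1, e2]
      refine ⟨2*X+1, 2*Y+1, by omega, by omega, by omega, by omega, ?_, ?_, ?_⟩
      · rw [Q0_odd]; push_cast; omega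
      · rw [Q0_even]; push_cast; omega
      · rw [Q0_even, Q0_odd, Q0_odd, hR]
        have : ((-1 : ℤ))^(2*(m+1)) = 1 := by rw [pow_mul]; norm_num
        rw [this]
        push_cast
        ring
    · subst hk
      have hm : 1 ≤ k := by omega
      have hA := (le_self_aux k hm).1
      have hB := (le_self_aux k hm).2
      have hA1 := A_pos k
      have hB1 := B_pos k
      obtain ⟨X, hX⟩ : ∃ X, X + A k = k + 1 := ⟨k + 1 - A k, by omega⟩
      obtain ⟨Y, hY⟩ : ∃ Y, Y + B k = k + 1 := ⟨k + 1 - B k, by omega⟩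
      have hR := RA hm hX hY
      have e1 : 2 * k + 1 - 1 = 2*k := by omega
      have e2 : 2 * k + 1 - 2 = 2*(k-1)+1 := by omega
      rw [e1, e2]
      refine ⟨2*Y, 2*X, by omega, by omega, by omega, by omega, ?_, ?_, ?_⟩
      · rw [Q0_even]; push_cast; omega
      · rw [Q0_odd]
        have : k - 1 + 1 = k := by omega
        rw [this]
        push_cast; omega
      · rw [Q0_even, Q0_odd, Q0_even]
        have : ((-1 : ℤ))^(2*k+1) = -1 := by rw [pow_succ, pow_mul]; norm_num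
        rw [this]
        have hR' : ((A (k+1) : ℤ)) + 1 = B X + B Y := by exact_mod_cast hR
        linarith

lemma IsQ.unique {Q : ℕ → ℤ} (hQ : IsQ Q) : ∀ n, 1 ≤ n → Q n = Q0 n := by
  intro n
  induction n using Nat.strong_induction_on with
  | _ n ih =>
    intro hn
    have h0 := Q0_isQ
    rcases Nat.lt_or_ge n 3 with h | h
    · have : n = 1 ∨ n = 2 := by omega
      rcases this with rfl | rfl
      · rw [hQ.1, h0.1]
      · rw [hQ.2.1, h0.2.1]
    · obtain ⟨i, j, hi1, hi2, hj1, hj2, hi, hj, hq⟩ := hQ.2.2 n h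
      obtain ⟨i', j', hi1', hi2', hj1', hj2', hi', hj', hq'⟩ := h0.2.2 n h
      rw [ih (n-1) (by omega) (by omega)] at hi
      rw [ih (n-2) (by omega) (by omega)] at hj
      have e1 : i = i' := by
        have : (i:ℤ) = i' := by rw [hi, hi']
        exact_mod_cast this
      have e2 : j = j' := by
        have : (j:ℤ) = j' := by rw [hj, hj']
        exact_mod_cast this
      rw [hq, hq', ih i hi2 hi1, ih j hj2 hj1, e1, e2]

lemma sign_val {Q : ℕ → ℤ} (hQ : IsQ Q) (m : ℕ) (hm : 1 ≤ m) :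
    Int.sign (Q (2*m-1+1) - Q (2*m-1)) = Int.sign ((B m : ℤ) - A m) := by
  have e1 : 2*m-1+1 = 2*m := by omega
  have e2 : 2*m-1 = 2*(m-1)+1 := by omega
  have e3 : m - 1 + 1 = m := by omega
  rw [e1, hQ.unique (2*m) (by omega), hQ.unique (2*m-1) (by omega), e2, Q0_even, Q0_odd, e3]
  have : (2 * (B m : ℤ) - 1 - (2 * (A m : ℤ) - 1)) = 2 * ((B m : ℤ) - A m) := by ring
  have h2 : Int.sign 2 = 1 := by decide
  rw [this, Int.sign_mul, h2, one_mul]

/-- The key identity `4^(e+2)·(a_j - 1) + 4 a_e = 4 a_{j+e+1}`. -/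
lemma key_id (e j : ℕ) : 4^(e+2) * (aa j - 1) + 4 * aa e = 4 * aa (j+e+1) := by
  have hP := aa_eq e
  have hR := aa_eq j
  have hT := aa_eq (j+e+1)
  have hj := aa_ge j
  have h4 : 4^(e+2) = 4 * 4^(e+1) := by ring
  have h5 : 4^(j+e+1+1) = 4^(e+1) * 4^(j+1) := by ring
  rw [h5] at hT
  rw [h4]
  generalize 4^(e+1) = x at *
  generalize 4^(j+1) = y at *
  obtain ⟨R, hR'⟩ : ∃ R, aa j = R + 1 := ⟨aa j - 1, by omega⟩
  rw [hR'] at hR ⊢
  have e1 : R + 1 - 1 = R := by omega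
  rw [e1]
  generalize aa e = P at *
  generalize aa (j+e+1) = T at *
  have h6 : 3 * (4 * x * R + 4 * P) = 3 * (4 * T) := by
    have h7 : 3 * R = 2 * y - 2 := by omega
    have h8 : 1 ≤ y := by omega
    obtain ⟨z, rfl⟩ : ∃ z, y = z + 1 := ⟨y-1, by omega⟩
    have h9 : 3 * R = 2 * z := by omega
    calc 3 * (4 * x * R + 4 * P) = 4 * x * (3 * R) + 4 * (3 * P) := by ring
      _ = 4 * x * (2 * z) + 4 * (2 * x + 1) := by rw [h9, hP]
      _ = 4 * (2 * (x * (z+1)) + 1) := by ring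
      _ = 3 * (4 * T) := by rw [← hT]; ring
  omega

lemma pow_aa (e : ℕ) : 4^(e+2) + 2 = 6 * aa e := by
  have hP := aa_eq e
  have h4 : 4^(e+2) = 4 * 4^(e+1) := by ring
  omega

/-- sign pattern around `U_r` -/
lemma sgn_pattern (d e i j : ℕ) (hd : d ≤ e) (hi : i ≤ d) (hj : j < d) :
    Int.sign ((B (2 * aa (j+e+1) - 2 - (e+1+i)) : ℤ) - A (2 * aa (j+e+1) - 2 - (e+1+i))) =
      Int.sign ((j : ℤ) - i) := by
  have hP := structPP (j+e+1)
  have hN := structNN (j+e)
  have hge := aa_ge (j+e+1)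
  have hU : UU (j+e+1) = 2 * aa (j+e+1) - (j+e+1) - 2 := rfl
  have hUU := hP.hU
  have hVV := hP.hV
  have hW := hN.hW
  have hr := hN.hr
  rcases Nat.lt_trichotomy i j with h | h | h
  · have e1 : 2 * aa (j+e+1) - 2 - (e+1+i) = UU (j+e+1) + (j - i) := by omega
    rw [e1]
    have h1 := hP.pos (UU (j+e+1) + (j-i)) (by omega) (by omega)
    rw [Int.sign_eq_one_of_pos, Int.sign_eq_one_of_pos]
    · omega
    · omega
  · subst h
    have e1 : 2 * aa (i+e+1) - 2 - (e+1+i) = UU (i+e+1) + 0 := by omega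
    rw [e1, hP.uA 0 (by omega), hP.uB 0 (by omega)]
    simp
  · have e1 : 2 * aa (j+e+1) - 2 - (e+1+i) = UU (j+e+1) - (i - j) := by omega
    rw [e1]
    have h1 := hN.neg (UU (j+e+1) - (i-j)) (by omega) (by omega)
    rw [Int.sign_eq_neg_one_of_neg, Int.sign_eq_neg_one_of_neg]
    · omega
    · omega

theorem not_regular {Q : ℕ → ℤ} (hQ : IsQ Q) :
    ¬ EventuallyRegular 4 (fun n => Int.sign (Q (n+1) - Q n)) := by
  rintro ⟨t, hreg, hev⟩
  obtain ⟨n0, hn0⟩ := Filter.eventually_atTop.1 hev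
  unfold IsRegular at hreg
  set M := Submodule.span ℤ (kernel 4 t) with hM
  have : Module.Finite ℤ M := Module.Finite.iff_fg.mpr hreg
  set d := Module.finrank ℤ M + 1 with hd
  set e := d + n0 with he
  let K : ℕ → (ℕ → ℤ) := fun k n => t (4^(e+2) * n + (4 * aa e - 5 - 2*k))
  have hge := aa_ge e
  have hKmem : ∀ k, K k ∈ M := by
    intro k
    apply Submodule.subset_span
    refine ⟨e+2, 4 * aa e - 5 - 2*k, ?_, rfl⟩
    have := pow_aa e
    omega
  have hval : ∀ i ≤ d, ∀ j < d, K (e+1+i) (aa j - 1) = Int.sign ((j:ℤ) - i) := by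
    intro i hi j hj
    have h1 := key_id e j
    have h2 := aa_ge j
    have h3 := aa_ge (j+e+1)
    have e1 : 4^(e+2) * (aa j - 1) + (4 * aa e - 5 - 2*(e+1+i)) =
        2 * (2 * aa (j+e+1) - 2 - (e+1+i)) - 1 := by omega
    show t (4^(e+2) * (aa j - 1) + (4 * aa e - 5 - 2*(e+1+i))) = _
    rw [e1]
    have h4 := hn0 (2 * (2 * aa (j+e+1) - 2 - (e+1+i)) - 1) (by omega)
    rw [← h4]
    have h5 := sign_val hQ (2 * aa (j+e+1) - 2 - (e+1+i)) (by omega)
    have h6 := sgn_pattern d e i j (by omega) hi hj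
    rw [← h6]
    exact h5
  let v : Fin d → M := fun i => ⟨K (e+1+i) - K (e+1+(i+1)), M.sub_mem (hKmem _) (hKmem _)⟩
  have hv : ∀ i : Fin d, ∀ j : Fin d, ((v i : M) : ℕ → ℤ) (aa j - 1) =
      Int.sign (((j:ℕ):ℤ) - (i:ℕ)) - Int.sign (((j:ℕ):ℤ) - ((i:ℕ)+1 : ℕ)) := by
    intro i j
    show K (e+1+i) (aa j - 1) - K (e+1+((i:ℕ)+1)) (aa j - 1) = _
    rw [hval i (by have := i.2; omega) j j.2, hval ((i:ℕ)+1) (by have := i.2; omega) j j.2]
  have hli : LinearIndependent ℤ v := by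
    rw [Fintype.linearIndependent_iff]
    intro g hg
    have key : ∀ k, ∀ i : Fin d, (i:ℕ) = k → g i = 0 := by
      intro k
      induction k using Nat.strong_induction_on with
      | _ k ih =>
        intro i hik
        have h1 : ((∑ l, g l • v l : M) : ℕ → ℤ) (aa i - 1) = 0 := by rw [hg]; rfl
        have h2 : ((∑ l, g l • v l : M) : ℕ → ℤ) (aa i - 1) =
            ∑ l, g l * ((v l : M) : ℕ → ℤ) (aa i - 1) := by
          rw [Submodule.coe_sum, Finset.sum_apply]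
          rfl
        rw [h2, Finset.sum_eq_single i] at h1
        · rw [hv i i] at h1
          have e1 : Int.sign (((i:ℕ):ℤ) - (i:ℕ)) = 0 := by simp
          have e2 : Int.sign (((i:ℕ):ℤ) - ((i:ℕ)+1 : ℕ)) = -1 := by
            apply Int.sign_eq_neg_one_of_neg
            push_cast; omega
          rw [e1, e2] at h1
          simpa using h1
        · intro l _ hl
          rcases Nat.lt_trichotomy (l:ℕ) (i:ℕ) with h3 | h3 | h3
          · rw [ih l (by omega) l rfl, zero_mul]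
          · exact absurd (Fin.ext h3) hl
          · rw [hv l i]
            have e1 : Int.sign (((i:ℕ):ℤ) - (l:ℕ)) = -1 := by
              apply Int.sign_eq_neg_one_of_neg
              omega
            have e2 : Int.sign (((i:ℕ):ℤ) - ((l:ℕ)+1 : ℕ)) = -1 := by
              apply Int.sign_eq_neg_one_of_neg
              push_cast; omega
            rw [e1, e2]; simp
        · intro h; exact absurd (Finset.mem_univ i) h
    intro i
    exact key i i rfl
  have hcard := hli.fintype_card_le_finrank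
  rw [Fintype.card_fin] at hcard
  omega

/-- **Answer to Q1 of MP_f18a8d_nt: no.** The sequence `Q̃` exists and is unique (on positive
indices), and its sign pattern is not eventually `4`-regular. -/
theorem result :
    (∃ Q : ℕ → ℤ, IsQ Q) ∧
    (∀ Q Q' : ℕ → ℤ, IsQ Q → IsQ Q' → ∀ n, 1 ≤ n → Q n = Q' n) ∧
    (∀ Q : ℕ → ℤ, IsQ Q → ¬ EventuallyRegular 4 (fun n => Int.sign (Q (n+1) - Q n))) :=
  ⟨⟨Q0, Q0_isQ⟩, fun Q Q' h h' n hn => by rw [h.unique n hn, h'.unique n hn],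
    fun Q hQ => not_regular hQ⟩

end Pool.Agent.Results.MP_f18a8d_nt.NotRegular
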